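import Mathlib
import Pool.Agent.LibConfluent.Defs
import Pool.Agent.ArcConfl.Main

set_option autoImplicit false

namespace Pool.Agent.Results.MP_53fb6e_gt.ArcLikeTarget

open Pool.Agent.LibConfluent Pool.Agent.ArcConfl

/-- If `f` is a confluent mapping of a continuum `X` onto an arc-like continuum `Y`, then
`f × id_Z` is confluent for every continuum `Z`. -/
theorem result (X Y : Type) [MetricSpace X] [CompactSpace X] [ConnectedSpace X]
    [MetricSpace Y] [CompactSpace Y] [ConnectedSpace Y] (hY : ArcLike Y)
    (f : X → Y) (hf : Confluent f)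
    (Z : Type) [MetricSpace Z] [CompactSpace Z] [ConnectedSpace Z] :
    Confluent (Prod.map f (id : Z → Z)) :=
  confluent_prod_id hf hY

end Pool.Agent.Results.MP_53fb6e_gt.ArcLikeTarget
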