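import Mathlib
import Pool.Agent.LibConfluent.Defs
import Pool.Agent.LibConfluent.SpaceAcyclic
import Pool.Agent.LibConfluent.SpaceConfluent
import Pool.Agent.TLC.Final
import Pool.Agent.TLC.Inv
import Pool.Agent.TLC.Sep
import Pool.Agent.TLC.Star
import Pool.Agent.TLC.Conf
import Pool.Agent.TLC.Tree1
import Pool.Agent.TLC.Tree2
import Pool.Agent.TLC.LCon
import Pool.Agent.TLC.Iota
import Pool.Agent.ACL.Final

set_option autoImplicit false

namespace Pool.Agent.Results.MP_53fb6e_gt.FullAnswer

open Pool.Agent.LibConfluent Pool.Agent.TLC Pool.Agent.ACL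

/-- The answer to the question for each of the three classes: there is a confluent mapping `f` of
an acyclic continuum such that `f × f` is not confluent; there is a confluent mapping `f` of a
tree-like continuum such that `f × f` is not confluent; and `f × f` is confluent for every
confluent mapping `f` of an arc-like continuum. -/
theorem result :
    (∃ (X Y : Type) (_ : MetricSpace X) (_ : MetricSpace Y) (f : X → Y),
      CompactSpace X ∧ ConnectedSpace X ∧ CompactSpace Y ∧ ConnectedSpace Y ∧
      CechAcyclic X ∧ Confluent f ∧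
      ∃ (L : Set (Y × Y)) (C : Set (X × X)), IsSubcontinuum L ∧
        IsComponentOf C (Prod.map f f ⁻¹' L) ∧ Prod.map f f '' C ≠ L) ∧
    (∃ (X Y : Type) (_ : MetricSpace X) (_ : MetricSpace Y) (f : X → Y),
      CompactSpace X ∧ ConnectedSpace X ∧ CompactSpace Y ∧ ConnectedSpace Y ∧
      TreeLike X ∧ Confluent f ∧
      ∃ (L : Set (Y × Y)) (C : Set (X × X)), IsSubcontinuum L ∧
        IsComponentOf C (Prod.map f f ⁻¹' L) ∧ Prod.map f f '' C ≠ L) ∧
    (∀ (X Y : Type) [MetricSpace X] [MetricSpace Y] (f : X → Y),
      CompactSpace X → ConnectedSpace X → CompactSpace Y → ConnectedSpace Y →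
      ArcLike X → Confluent f → Confluent (Prod.map f f)) := by
  refine ⟨?_, ?_, ?_⟩
  · obtain ⟨C, hC, hC'⟩ := not_image_component
    exact ⟨XSet, YSet, inferInstance, inferInstance, sq, inferInstance, inferInstance,
      inferInstance, inferInstance, cechAcyclic_of_chainContractible chainContractible_XSet,
      confluent_sq, LSet, C, LSet_subcontinuum, hC, hC'⟩
  · exact Fin11.main inv_proof
      (treeLikeX_proof (treeX_proof treeImage_proof treeSets_proof)
        (Pool.Agent.TLC.cont_proof inv_proof))
      (conf_proof star2_proof star3_proof sepT_proof sepY'_proof (conT_proof inv_proof)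
        (conY'_proof inv_proof))
      l_proof lT_proof Iota89.iota_proof
  · intro X Y _ _ f hX hX' hY hY' hA hf
    exact main_final X Y f hA hf

end Pool.Agent.Results.MP_53fb6e_gt.FullAnswer
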